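import Pool.Agent.H355R3.UF.Stmts

set_option autoImplicit false

/-! Quotients of finite nilpotent groups. -/

namespace Pool.Agent.H3R3.UF

open H355R3

theorem taskN : H355R3.UF.TaskN := by
  intro M _ _ hM q hq hdvd
  obtain ⟨e⟩ := ((Group.isNilpotent_of_finite_tfae (G := M)).out 0 4).mp hM
  have hqm : q ∈ (Nat.card M).primeFactors :=
    Nat.mem_primeFactors.2 ⟨hq.out, hdvd, Nat.card_pos.ne'⟩
  let P : Sylow q M := default
  have hPn : (P : Subgroup M) ≠ ⊥ := P.ne_bot_of_dvd_card hdvd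
  have : Nontrivial (P : Subgroup M) := (Subgroup.nontrivial_iff_ne_bot _).2 hPn
  obtain ⟨g, hg⟩ := exists_surj_Zp (p := q) (P : Subgroup M) P.isPGroup'
  let π : (∀ p : (Nat.card M).primeFactors, ∀ P : Sylow p M, (↑P : Subgroup M)) →*
      (P : Subgroup M) :=
    (Pi.evalMonoidHom (fun R : Sylow q M => ((R : Subgroup M) : Type)) P).comp
      (Pi.evalMonoidHom (fun p : (Nat.card M).primeFactors =>
        ∀ R : Sylow p M, (↑R : Subgroup M)) ⟨q, hqm⟩)
  have hπ : Function.Surjective π := by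
    intro y
    classical
    refine ⟨Function.update 1 (⟨q, hqm⟩ : (Nat.card M).primeFactors)
      (Function.update (1 : ∀ R : Sylow q M, (↑R : Subgroup M)) P y), ?_⟩
    simp [π]
  exact ⟨(g.comp π).comp e.symm.toMonoidHom, (hg.comp hπ).comp e.symm.surjective⟩

end Pool.Agent.H3R3.UF
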